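import Pool.Agent.X271.SymDef

/-!
# Branches of the symbolic defect with different leading coefficients

For `I = (y²z, xyz, x²y, x³) ⊂ K[x,y,z]` the symbolic defect is `sdef(2m) = 4m - 2` and
`sdef(2m+1) = 5m + 1` for all `m ≥ 1`: both branches are linear in `n`, with leading
coefficients `2` and `5/2`.
-/

namespace Pool.Agent.Results.MP_a342dd_al.UnequalBranches

open MvPolynomial Pool.Agent.X271.Mono Pool.Agent.X271.SymDef

theorem result :
    (∀ (K : Type*) [Field K], IsMonomial (sdIdeal K) ∧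
      (∀ m : ℕ, 1 ≤ m → sdef (sdIdeal K) (2 * m) = 4 * m - 2) ∧
      (∀ m : ℕ, 1 ≤ m → sdef (sdIdeal K) (2 * m + 1) = 5 * m + 1) ∧
      ¬ ∃ L : ℝ, Filter.Tendsto (fun n : ℕ => (sdef (sdIdeal K) n : ℝ) / n) Filter.atTop
        (nhds L)) := by
  intro K _
  refine ⟨sdIdeal_mono, sdef_even, sdef_odd, ?_⟩
  rintro ⟨L, hL⟩
  have h1 : Filter.Tendsto (fun m : ℕ => 2 * m) Filter.atTop Filter.atTop :=
    Filter.tendsto_atTop_mono (fun m => by simp only [id]; omega) Filter.tendsto_id
  have h2 : Filter.Tendsto (fun m : ℕ => 2 * m + 1) Filter.atTop Filter.atTop :=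
    Filter.tendsto_atTop_mono (fun m => by simp only [id]; omega) Filter.tendsto_id
  have e1 : Filter.Tendsto (fun m : ℕ => (2 : ℝ) - 1 / m) Filter.atTop (nhds (2 - 0)) :=
    tendsto_const_nhds.sub (tendsto_const_div_atTop_nhds_zero_nat 1)
  have e2 : Filter.Tendsto (fun m : ℕ => (5 / 2 : ℝ) - (3 / 2) / ((2 * m + 1 : ℕ) : ℝ))
      Filter.atTop (nhds (5 / 2 - 0)) :=
    tendsto_const_nhds.sub ((tendsto_const_div_atTop_nhds_zero_nat (3 / 2)).comp h2)
  have k1 := (hL.comp h1)
  have k2 := (hL.comp h2)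
  have l1 : L = 2 - 0 := by
    refine tendsto_nhds_unique (k1.congr' ?_) e1
    filter_upwards [Filter.eventually_ge_atTop 1] with m hm
    simp only [Function.comp_apply]
    rw [sdef_even m hm, Nat.cast_sub (by omega)]
    have : (m : ℝ) ≠ 0 := by positivity
    push_cast
    field_simp
    ring
  have l2 : L = 5 / 2 - 0 := by
    refine tendsto_nhds_unique (k2.congr' ?_) e2
    filter_upwards [Filter.eventually_ge_atTop 1] with m hm
    simp only [Function.comp_apply]
    rw [sdef_odd m hm]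
    have : ((2 * m + 1 : ℕ) : ℝ) ≠ 0 := by positivity
    push_cast
    push_cast at this
    field_simp
    ring
  rw [l1] at l2
  norm_num at l2

end Pool.Agent.Results.MP_a342dd_al.UnequalBranches
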